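import Pool.Agent.H75.Isom.Perm

/-!
# Borel actions by isometries are continuous
-/

set_option autoImplicit false

open Set Topology Filter MeasureTheory

namespace Pool.Agent.H75.Isom

variable {G : Type*} [TopologicalSpace G] [Group G] [IsTopologicalGroup G]

/-- Pettis' theorem. -/
lemma pettis [BaireSpace G] {S : Set G} (hS : BaireMeasurableSet S) (hm : ¬ IsMeagre S) :
    {g : G | ∃ s ∈ S, s * g ∈ S} ∈ 𝓝 (1 : G) := by
  obtain ⟨U, hUo, hSU⟩ := hS.residualEq_isOpen
  have hR : {y | y ∈ S ↔ y ∈ U} ∈ residual G := by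
    filter_upwards [hSU] with p hp
    exact iff_of_eq hp
  have hUne : U.Nonempty := by
    by_contra hU
    rw [not_nonempty_iff_eq_empty] at hU
    apply hm
    refine mem_of_superset hR fun y hy hyS => ?_
    have : y ∈ U := hy.1 hyS
    rw [hU] at this
    exact this
  obtain ⟨u, hu⟩ := hUne
  have hW : IsOpen ((fun g : G => u * g) ⁻¹' U) := hUo.preimage (continuous_const_mul u)
  refine mem_of_superset (hW.mem_nhds (show u * 1 ∈ U by simpa using hu)) fun g hg => ?_
  have hV : IsOpen (U ∩ (fun s : G => s * g) ⁻¹' U) :=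
    hUo.inter (hUo.preimage (continuous_mul_const g))
  have hR' : (fun s : G => s * g) ⁻¹' {y | y ∈ S ↔ y ∈ U} ∈ residual G := by
    have h1 : IsMeagre ({y | y ∈ S ↔ y ∈ U}ᶜ) := by
      rw [IsMeagre, compl_compl]
      exact hR
    have h2 := h1.preimage_of_isOpenMap (continuous_mul_const g) (isOpenMap_mul_right g)
    rw [IsMeagre, ← preimage_compl, compl_compl] at h2
    exact h2
  obtain ⟨s, ⟨hs1, hs2⟩, hs3, hs4⟩ := (dense_of_mem_residual (inter_mem hR hR')).inter_open_nonempty
    _ hV ⟨u, hu, hg⟩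
  exact ⟨s, hs3.2 hs1, hs4.2 hs2⟩

/-- A Borel action by isometries of a separable metric space is continuous. -/
theorem continuousSMul_of_measurable [PolishSpace G] [MeasurableSpace G] [BorelSpace G]
    {X : Type*} [MetricSpace X] [SecondCountableTopology X] [MeasurableSpace X] [BorelSpace X]
    [MulAction G X] (hmeas : ∀ x : X, Measurable fun g : G => g • x)
    (hiso : ∀ (g : G) (x y : X), dist (g • x) (g • y) = dist x y) : ContinuousSMul G X := by
  have key : ∀ (x : X) (ε : ℝ), 0 < ε → {g : G | dist (g • x) x < ε} ∈ 𝓝 (1 : G) := by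
    intro x ε hε
    obtain ⟨D, hDc, hDd⟩ := TopologicalSpace.exists_countable_dense X
    have hA : ∃ d ∈ D, ¬ IsMeagre {g : G | dist (g • x) d < ε / 2} := by
      by_contra hcon
      push Not at hcon
      have hcov : (univ : Set G) ⊆ ⋃ d ∈ D, {g : G | dist (g • x) d < ε / 2} := by
        intro g _
        obtain ⟨d, hd, hdD⟩ := Metric.dense_iff.1 hDd (g • x) (ε / 2) (half_pos hε)
        exact mem_biUnion hdD (by rw [mem_ofPred_eq, dist_comm]; exact hd)
      have hmg : IsMeagre (univ : Set G) := by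
        refine IsMeagre.mono hcov ?_
        have := hDc.to_subtype
        rw [biUnion_eq_iUnion]
        exact isMeagre_iUnion fun d => hcon d d.2
      exact not_isMeagre_of_isOpen isOpen_univ ⟨1, mem_univ _⟩ hmg
    obtain ⟨d, -, hd⟩ := hA
    have hAm : MeasurableSet {g : G | dist (g • x) d < ε / 2} :=
      ((measurable_id.dist measurable_const).comp (hmeas x)) measurableSet_Iio
    refine mem_of_superset (pettis hAm.baireMeasurableSet hd) ?_
    rintro g ⟨s, hs, hsg⟩
    have h1 : dist (s • x) d < ε / 2 := hs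
    have h2 : dist ((s * g) • x) d < ε / 2 := hsg
    change dist (g • x) x < ε
    rw [← hiso s, ← mul_smul]
    have := dist_triangle_right ((s * g) • x) (s • x) d
    linarith
  constructor
  rw [continuous_iff_continuousAt]
  rintro ⟨g0, x0⟩
  rw [Metric.continuousAt_iff', ]
  intro ε hε
  have h1 : {g : G | dist ((g0⁻¹ * g) • x0) x0 < ε / 2} ∈ 𝓝 g0 := by
    have hc : ContinuousAt (fun g : G => g0⁻¹ * g) g0 := (continuous_const_mul g0⁻¹).continuousAt
    have := hc.preimage_mem_nhds (t := {g : G | dist (g • x0) x0 < ε / 2})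
      (by rw [inv_mul_cancel]; exact key x0 (ε / 2) (half_pos hε))
    exact this
  have h2 : Metric.ball x0 (ε / 2) ∈ 𝓝 x0 := Metric.ball_mem_nhds x0 (half_pos hε)
  filter_upwards [prod_mem_nhds h1 h2] with p hp
  obtain ⟨hp1, hp2⟩ := hp
  have e1 : dist (p.1 • p.2) (p.1 • x0) < ε / 2 := by rw [hiso]; exact hp2
  have e2 : dist (p.1 • x0) (g0 • x0) < ε / 2 := by
    have : dist ((g0⁻¹ * p.1) • x0) x0 < ε / 2 := hp1
    rw [← hiso g0, smul_smul, mul_inv_cancel_left] at this
    exact this
  change dist (p.1 • p.2) (g0 • x0) < ε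
  have := dist_triangle (p.1 • p.2) (p.1 • x0) (g0 • x0)
  linarith

/-- The dichotomy for Borel actions by isometries. -/
theorem dichotomy_borel [PolishSpace G] [MeasurableSpace G] [BorelSpace G]
    (hG : CountablyManyEnds G) {X : Type*} [MetricSpace X] [PolishSpace X] [MeasurableSpace X]
    [BorelSpace X] [MulAction G X] (hmeas : ∀ x : X, Measurable fun g : G => g • x)
    (hiso : ∀ (g : G) (x y : X), dist (g • x) (g • y) = dist x y) :
    Countable (Quotient (MulAction.orbitRel G X)) ∨
      ∃ f : (ℕ → Bool) → X, Continuous f ∧ ∀ x y, x ≠ y → ¬ ∃ g : G, g • f x = f y := by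
  have := continuousSMul_of_measurable hmeas hiso
  exact dichotomy hG hiso

end Pool.Agent.H75.Isom
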