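import Pool.Agent.H4.TVI.PermSC

/-!
# Borel spaces over isometric actions of the symmetric group

A Borel equivariant map into an isometric space reduces the countable-or-perfect dichotomy to the
actions of the stabilizers on the fibres.
-/

set_option autoImplicit false
set_option linter.unusedSectionVars false

open Set Topology Filter MeasureTheory

namespace Pool.Agent.H75.Isom

open Pool.Agent.H4.TVI

/-- The subgroup `K` has countably many or perfectly many orbits on the set `A`: a countable set
meets the orbit of every point of `A`, or a Borel map from Cantor space into `A` sends distinct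
points to points of distinct orbits. -/
def CountableOrPerfectOn {G X : Type*} [Group G] [MulAction G X] [MeasurableSpace X]
    (K : Subgroup G) (A : Set X) : Prop :=
  (∃ D : Set X, D.Countable ∧ ∀ x ∈ A, ∃ g ∈ K, g • x ∈ D) ∨
    ∃ f : (ℕ → Bool) → X, Measurable f ∧ (∀ a, f a ∈ A) ∧
      ∀ a b, a ≠ b → ∀ g ∈ K, g • f a ≠ f b

attribute [local instance] Pool.Agent.H71.permTop

/-- **Reduction to the fibres.** -/
theorem reduction {X Z : Type*} [MeasurableSpace X] [StandardBorelSpace X]
    [MulAction (Equiv.Perm ℕ) X] [MetricSpace Z] [SecondCountableTopology Z] [MeasurableSpace Z]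
    [BorelSpace Z] [MulAction (Equiv.Perm ℕ) Z] [IsIsometricSMul (Equiv.Perm ℕ) Z]
    [ContinuousSMul (Equiv.Perm ℕ) Z] (π : X → Z) (hπ : Measurable π)
    (heq : ∀ (g : Equiv.Perm ℕ) (x : X), π (g • x) = g • π x)
    (hfib : ∀ z, CountableOrPerfectOn (MulAction.stabilizer (Equiv.Perm ℕ) z) (π ⁻¹' {z})) :
    CountableOrPerfectOn (⊤ : Subgroup (Equiv.Perm ℕ)) (univ : Set X) := by
  classical
  letI := upgradeStandardBorel X
  obtain ⟨t', ht', hc, hpol⟩ := hπ.exists_continuous
  -- the pulled back relation
  let r : Setoid X := (oc (Equiv.Perm ℕ) Z).comap π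
  by_cases hunc : Countable (Quotient r)
  · -- a countable set of points of `Z` meeting every orbit of a point of the image
    have hT : ∃ T : Set Z, T.Countable ∧ ∀ x : X, ∃ g : Equiv.Perm ℕ, g • π x ∈ T := by
      refine ⟨⋃ q : Quotient r, Quotient.out '' {c : Quotient (MulAction.orbitRel
        (Equiv.Perm ℕ) Z) | ∃ w, oc (Equiv.Perm ℕ) Z (π q.out) w ∧ Quotient.mk _ w = c}, ?_, ?_⟩
      · exact countable_iUnion fun q => (countable_orbits_in_closure _).image _
      · intro x
        have h1 : oc (Equiv.Perm ℕ) Z (π (Quotient.mk r x).out) (π x) :=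
          Quotient.mk_out (s := r) x
        have h2 : (MulAction.orbitRel (Equiv.Perm ℕ) Z)
            (Quotient.mk (MulAction.orbitRel (Equiv.Perm ℕ) Z) (π x)).out (π x) :=
          Quotient.mk_out (s := MulAction.orbitRel (Equiv.Perm ℕ) Z) (π x)
        obtain ⟨g, hg⟩ := h2
        refine ⟨g, mem_iUnion.2 ⟨Quotient.mk r x, ?_⟩⟩
        refine ⟨Quotient.mk (MulAction.orbitRel (Equiv.Perm ℕ) Z) (π x), ⟨π x, h1, rfl⟩, ?_⟩
        exact hg.symm
    obtain ⟨T, hTc, hT⟩ := hT
    by_cases hall : ∀ z ∈ T, ∃ D : Set X, D.Countable ∧ ∀ x ∈ π ⁻¹' {z},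
        ∃ g ∈ MulAction.stabilizer (Equiv.Perm ℕ) z, g • x ∈ D
    · left
      choose! D hD hDx using hall
      refine ⟨⋃ z ∈ T, D z, hTc.biUnion hD, fun x _ => ?_⟩
      obtain ⟨g, hg⟩ := hT x
      obtain ⟨h, -, hh⟩ := hDx (g • π x) hg (g • x) (heq g x)
      refine ⟨h * g, Subgroup.mem_top _, mem_iUnion₂.2 ⟨g • π x, hg, ?_⟩⟩
      rw [mul_smul]
      exact hh
    · right
      push Not at hall
      obtain ⟨z, hz, hD⟩ := hall
      rcases hfib z with ⟨D, hDc, hDx⟩ | ⟨f, hf, hfA, hf'⟩
      · obtain ⟨x, hx, hx'⟩ := hD D hDc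
        obtain ⟨g, hg, hgx⟩ := hDx x hx
        exact absurd hgx (hx' g hg)
      · refine ⟨f, hf, fun _ => mem_univ _, fun a b hab g _ hg => hf' a b hab g ?_ hg⟩
        rw [MulAction.mem_stabilizer_iff]
        have h1 : π (f a) = z := hfA a
        have h2 : π (f b) = z := hfA b
        rw [← hg, heq, h1] at h2
        exact h2
  · right
    have hcl : @IsClosed (X × X) (@instTopologicalSpaceProd X X t' t')
        {p : X × X | r p.1 p.2} := by
      letI := t'
      have : Continuous π := hc
      exact (isClosed_oc (G := Equiv.Perm ℕ) (Z := Z)).preimage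
        (by fun_prop : Continuous fun p : X × X => (π p.1, π p.2))
    obtain ⟨f, hf, hf'⟩ := @closed_relation X t' hpol r hcl hunc
    refine ⟨f, ?_, fun _ => mem_univ _, fun x y hxy g _ hg => hf' x y hxy ?_⟩
    · have hid : @Continuous X X t' (upgradeStandardBorel X).toTopologicalSpace id :=
        continuous_id_iff_le.2 ht'
      have hfc : @Continuous _ X _ (upgradeStandardBorel X).toTopologicalSpace f :=
        @Continuous.comp _ X X _ t' (upgradeStandardBorel X).toTopologicalSpace f id hid hf
      exact @Continuous.measurable (ℕ → Bool) X _ _ _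
        (upgradeStandardBorel X).toTopologicalSpace _ (upgradeStandardBorel X).toBorelSpace f hfc
    · have h1 : oc (Equiv.Perm ℕ) Z (π (f x)) (π (f y)) := by
        rw [← hg, heq]
        exact oc_smul _ _
      exact h1

end Pool.Agent.H75.Isom
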