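import Pool.Agent.H71.CC

/-!
# Isometric actions of Polish groups whose left completion has countably many orbits
-/

set_option autoImplicit false

open Set Topology Filter MeasureTheory

namespace Pool.Agent.H75.Isom

/-- A sequence `c` in a topological group is left-Cauchy if `(c m)⁻¹ * c n` tends to `1`. -/
def LeftCauchy {G : Type*} [Group G] [TopologicalSpace G] (c : ℕ → G) : Prop :=
  ∀ V ∈ 𝓝 (1 : G), ∃ N, ∀ m ≥ N, ∀ n ≥ N, (c m)⁻¹ * c n ∈ V

/-- The left completion of `G` is a union of countably many `G`-orbits: there are left-Cauchy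
sequences `c 0, c 1, …` such that every left-Cauchy sequence is equivalent to a left translate
of one of them. -/
def CountablyManyEnds (G : Type*) [Group G] [TopologicalSpace G] : Prop :=
  ∃ c : ℕ → ℕ → G, (∀ i, LeftCauchy (c i)) ∧
    ∀ g : ℕ → G, LeftCauchy g →
      ∃ i h, Tendsto (fun n => (g n)⁻¹ * (h * c i n)) atTop (𝓝 1)

section Effros

variable {G : Type*} [TopologicalSpace G] [Group G] [IsTopologicalGroup G] [PolishSpace G]
variable {Y : Type*} [TopologicalSpace Y] [MulAction G Y] [ContinuousSMul G Y]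

lemma isMeagre_smul (g : G) {s : Set Y} (hs : IsMeagre s) : IsMeagre ((fun y => g • y) '' s) := by
  have h : (fun y => g • y) '' s = (fun y => g⁻¹ • y) ⁻¹' s := by
    ext y
    constructor
    · rintro ⟨x, hx, rfl⟩
      simpa using hx
    · intro hy
      exact ⟨g⁻¹ • y, hy, by simp⟩
  rw [h]
  exact hs.preimage_of_isOpenMap (continuous_const_smul g⁻¹) (isOpenMap_smul g⁻¹)

/-- If the orbit of `z` is not meagre then `V • z` is not meagre for `V` open and nonempty. -/
lemma not_isMeagre_image (z : Y) (hz : ¬ IsMeagre (range fun g : G => g • z)) {V : Set G}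
    (hV : IsOpen V) (hne : V.Nonempty) : ¬ IsMeagre ((fun g : G => g • z) '' V) := by
  intro hm
  apply hz
  obtain ⟨D, hDc, hDd⟩ := TopologicalSpace.exists_countable_dense G
  have hsub : (range fun g : G => g • z) ⊆
      ⋃ d ∈ D, (fun y => d • y) '' ((fun g : G => g • z) '' V) := by
    rintro _ ⟨g, rfl⟩
    obtain ⟨v, hv⟩ := hne
    have ho : IsOpen {d : G | d⁻¹ * g ∈ V} :=
      hV.preimage (continuous_inv.mul continuous_const)
    obtain ⟨d, hd1, hd2⟩ := hDd.inter_open_nonempty _ ho ⟨g * v⁻¹, by simpa using hv⟩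
    refine mem_biUnion hd2 ⟨(d⁻¹ * g) • z, ⟨d⁻¹ * g, hd1, rfl⟩, ?_⟩
    simp [smul_smul]
  refine IsMeagre.mono hsub ?_
  haveI := hDc.to_subtype
  rw [biUnion_eq_iUnion]
  exact isMeagre_iUnion fun d => isMeagre_smul _ hm

end Effros

section Iso

variable {G : Type*} [TopologicalSpace G] [Group G] [IsTopologicalGroup G] [PolishSpace G]
variable {Y : Type*} [MetricSpace Y] [PolishSpace Y] [MulAction G Y] [ContinuousSMul G Y]

/-- Effros' theorem for isometric actions. -/
lemma effros (hiso : ∀ (g : G) (x y : Y), dist (g • x) (g • y) = dist x y) (z : Y)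
    (hz : ¬ IsMeagre (range fun g : G => g • z)) {V : Set G} (hV : V ∈ 𝓝 (1 : G)) :
    ∃ ε > 0, ∀ g : G, dist (g • z) z < ε → ∃ v ∈ V, v • z = g • z := by
  -- a small open neighbourhood
  obtain ⟨W, hWo, hW1, hWV⟩ : ∃ W : Set G, IsOpen W ∧ (1 : G) ∈ W ∧
      ∀ a ∈ W, ∀ b ∈ W, ∀ c ∈ W, a⁻¹ * b⁻¹ * c ∈ V := by
    have hc : Continuous fun p : G × G × G => p.1⁻¹ * p.2.1⁻¹ * p.2.2 := by fun_prop
    have hmem : (fun p : G × G × G => p.1⁻¹ * p.2.1⁻¹ * p.2.2) ⁻¹' V ∈ 𝓝 ((1 : G), (1 : G), (1 : G)) := by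
      apply hc.continuousAt.preimage_mem_nhds
      simpa using hV
    rw [nhds_prod_eq, nhds_prod_eq, mem_prod_iff] at hmem
    obtain ⟨A, hA, B, hB, hAB⟩ := hmem
    rw [mem_prod_iff] at hB
    obtain ⟨B1, hB1, B2, hB2, hB12⟩ := hB
    obtain ⟨W, hW, hWo, hW1⟩ := mem_nhds_iff.1 (inter_mem hA (inter_mem hB1 hB2))
    refine ⟨W, hWo, hW1, fun a ha b hb c hc => ?_⟩
    exact hAB (show (a, (b, c)) ∈ A ×ˢ B from ⟨(hW ha).1, hB12 ⟨(hW hb).2.1, (hW hc).2.2⟩⟩)
  -- the set `W • z`
  set S : Set Y := (fun g : G => g • z) '' W with hS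
  have hSnm : ¬ IsMeagre S := not_isMeagre_image z hz hWo ⟨1, hW1⟩
  have hSa : AnalyticSet S := hWo.analyticSet_image (continuous_id.smul continuous_const)
  obtain ⟨U, hUo, hSU⟩ := (Pool.Agent.H71.DST.analyticSet_baireMeasurableSet hSa).residualEq_isOpen
  have hR : {y | y ∈ S ↔ y ∈ U} ∈ residual Y := by
    filter_upwards [hSU] with p hp
    exact iff_of_eq hp
  have hUne : U.Nonempty := by
    by_contra hU
    rw [not_nonempty_iff_eq_empty] at hU
    apply hSnm
    refine mem_of_superset hR fun y hy hyS => ?_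
    have : y ∈ U := hy.1 hyS
    rw [hU] at this
    exact this
  -- a point of `W • z` in `U`
  obtain ⟨y0, hy0U, hy0R⟩ := (dense_of_mem_residual hR).inter_open_nonempty U hUo hUne
  obtain ⟨v0, hv0, rfl⟩ := hy0R.2 hy0U
  obtain ⟨ε, hε, hball⟩ := Metric.isOpen_iff.1 hUo _ hy0U
  refine ⟨ε, hε, fun g hg => ?_⟩
  have h1 : v0 • g • z ∈ U := by
    apply hball
    rw [Metric.mem_ball, hiso]
    exact hg
  -- a neighbourhood of `1` moving `v0 g z` inside `U`
  set V1 : Set G := {v | v ∈ W ∧ v • v0 • g • z ∈ U} with hV1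
  have hV1o : IsOpen V1 := hWo.inter
    (hUo.preimage (continuous_id.smul continuous_const))
  have hV11 : (1 : G) ∈ V1 := ⟨hW1, by simpa using h1⟩
  have hV2o : IsOpen ((fun v => v * (v0 * g)) '' V1) := (isOpenMap_mul_right (v0 * g)) _ hV1o
  have hnm := not_isMeagre_image z hz hV2o ⟨_, ⟨1, hV11, rfl⟩⟩
  have himg : (fun g : G => g • z) '' ((fun v => v * (v0 * g)) '' V1) =
      (fun v : G => v • v0 • g • z) '' V1 := by
    rw [image_image]
    simp only [smul_smul]
  rw [himg] at hnm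
  have : ∃ v ∈ V1, v • v0 • g • z ∈ S := by
    by_contra hcon
    push Not at hcon
    apply hnm
    refine mem_of_superset hR fun y hy hy' => ?_
    obtain ⟨v, hv, rfl⟩ := hy'
    exact hcon v hv (hy.2 hv.2)
  obtain ⟨v1, hv1, v2, hv2, hv12⟩ := this
  refine ⟨v0⁻¹ * v1⁻¹ * v2, hWV _ hv0 _ hv1.1 _ hv2, ?_⟩
  have e : v2 • z = v1 • v0 • g • z := hv12
  rw [mul_smul, mul_smul, e, inv_smul_smul, inv_smul_smul]

/-- Every point of the closure of a non-meagre orbit is the limit of a left-Cauchy sequence. -/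
lemma exists_leftCauchy (hiso : ∀ (g : G) (x y : Y), dist (g • x) (g • y) = dist x y) (z : Y)
    (hz : ¬ IsMeagre (range fun g : G => g • z)) (y : Y)
    (hy : y ∈ closure (range fun g : G => g • z)) :
    ∃ g : ℕ → G, LeftCauchy g ∧ Tendsto (fun n => g n • z) atTop (𝓝 y) := by
  obtain ⟨u, hu, humul⟩ := IsTopologicalGroup.exists_antitone_basis_nhds_one G
  have hun : ∀ n, u n ∈ 𝓝 (1 : G) := fun n => hu.1.mem_of_mem trivial
  have hu1 : ∀ n, (1 : G) ∈ u n := fun n => mem_of_mem_nhds (hun n)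
  choose ε hε heff using fun n => effros hiso z hz (hun (n + 1))
  -- approximating points
  set δ : ℕ → ℝ := fun n => min ((1 / 2 : ℝ) ^ n)
    ((Finset.range (n + 1)).inf' ⟨0, by simp⟩ ε) / 2 with hδ
  have hinf : ∀ n, 0 < (Finset.range (n + 1)).inf' ⟨0, by simp⟩ ε := fun n => by
    rw [Finset.lt_inf'_iff]
    exact fun i _ => hε i
  have hδpos : ∀ n, 0 < δ n := fun n => half_pos (lt_min (by positivity) (hinf n))
  have happ : ∀ n, ∃ h : G, dist (h • z) y < δ n := by
    intro n
    obtain ⟨_, ⟨h, rfl⟩, hh⟩ := Metric.mem_closure_iff.1 hy (δ n) (hδpos n)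
    exact ⟨h, by rw [dist_comm]; exact hh⟩
  choose h hh using happ
  have hclose : ∀ n, dist (h (n + 1) • z) (h n • z) < ε n := by
    intro n
    have h1 := hh (n + 1)
    have h2 := hh n
    have h3 : δ (n + 1) ≤ ε n / 2 := by
      have : (Finset.range (n + 1 + 1)).inf' ⟨0, by simp⟩ ε ≤ ε n :=
        Finset.inf'_le _ (by simp)
      have := (min_le_right ((1 / 2 : ℝ) ^ (n + 1)) _).trans this
      simp only [hδ]
      linarith
    have h4 : δ n ≤ ε n / 2 := by
      have : (Finset.range (n + 1)).inf' ⟨0, by simp⟩ ε ≤ ε n :=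
        Finset.inf'_le _ (by simp)
      have := (min_le_right ((1 / 2 : ℝ) ^ n) _).trans this
      simp only [hδ]
      linarith
    calc dist (h (n + 1) • z) (h n • z)
        ≤ dist (h (n + 1) • z) y + dist (h n • z) y := dist_triangle_right _ _ _
      _ < ε n := by linarith
  -- lifting
  have hstep : ∀ (n : ℕ) (g : G), g • z = h n • z →
      ∃ g' : G, g' • z = h (n + 1) • z ∧ g⁻¹ * g' ∈ u (n + 1) := by
    intro n g hg
    obtain ⟨v, hv, hvz⟩ := heff n (g⁻¹ * h (n + 1)) (by
      have := hiso g ((g⁻¹ * h (n + 1)) • z) z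
      rw [← this, hg, smul_smul, mul_inv_cancel_left]
      exact hclose n)
    refine ⟨g * v, ?_, by simpa using hv⟩
    rw [mul_smul, hvz, smul_smul, mul_inv_cancel_left]
  choose! nx hnx1 hnx2 using hstep
  let g : ℕ → G := fun n => Nat.rec (h 0) (fun n g => nx n g) n
  have hg0 : ∀ n, g n • z = h n • z := by
    intro n
    induction n with
    | zero => rfl
    | succ n ih => exact hnx1 n (g n) ih
  have hg1 : ∀ n, (g n)⁻¹ * g (n + 1) ∈ u (n + 1) := fun n => hnx2 n (g n) (hg0 n)
  have hg2 : ∀ k m, (g m)⁻¹ * g (m + k) ∈ u m := by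
    intro k
    induction k with
    | zero => intro m; simpa using hu1 m
    | succ k ih =>
      intro m
      have e : (g m)⁻¹ * g (m + (k + 1)) = ((g m)⁻¹ * g (m + 1)) *
          ((g (m + 1))⁻¹ * g (m + 1 + k)) := by
        rw [show m + (k + 1) = m + 1 + k by ring]
        group
      rw [e]
      exact humul m (mul_mem_mul (hg1 m) (ih (m + 1)))
  refine ⟨g, ?_, ?_⟩
  · intro V hV
    have hV' : V ∩ V⁻¹ ∈ 𝓝 (1 : G) := inter_mem hV (inv_mem_nhds_one G hV)
    obtain ⟨N, -, hN⟩ := hu.1.mem_iff.1 hV'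
    have hmono : ∀ m ≥ N, u m ⊆ V ∩ V⁻¹ := fun m hm => (hu.2 hm).trans hN
    refine ⟨N, fun m hm n hn => ?_⟩
    rcases le_total m n with hmn | hmn
    · obtain ⟨k, rfl⟩ := Nat.exists_eq_add_of_le hmn
      exact (hmono m hm (hg2 k m)).1
    · obtain ⟨k, rfl⟩ := Nat.exists_eq_add_of_le hmn
      have := (hmono n hn (hg2 k n)).2
      rw [Set.mem_inv, mul_inv_rev, inv_inv] at this
      exact this
  · rw [tendsto_iff_dist_tendsto_zero]
    have h2 : Tendsto (fun n : ℕ => (1 / 2 : ℝ) ^ n) atTop (𝓝 0) :=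
      tendsto_pow_atTop_nhds_zero_of_lt_one (by norm_num) (by norm_num)
    refine squeeze_zero (fun n => dist_nonneg) (fun n => ?_) h2
    rw [hg0 n]
    refine (hh n).le.trans ?_
    have := min_le_left ((1 / 2 : ℝ) ^ n) ((Finset.range (n + 1)).inf' ⟨0, by simp⟩ ε)
    have hpos : (0 : ℝ) < (1 / 2 : ℝ) ^ n := by positivity
    simp only [hδ]
    linarith

/-- The closure of a non-meagre orbit contains only countably many orbits. -/
lemma countable_of_not_isMeagre (hG : CountablyManyEnds G)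
    (hiso : ∀ (g : G) (x y : Y), dist (g • x) (g • y) = dist x y) (z : Y)
    (hz : ¬ IsMeagre (range fun g : G => g • z)) :
    ∃ b : ℕ → Y, ∀ y ∈ closure (range fun g : G => g • z), ∃ i, ∃ h : G, y = h • b i := by
  classical
  obtain ⟨c, hc, hG⟩ := hG
  have hlim : ∀ i, ∃ b : Y, (∃ b' : Y, Tendsto (fun n => c i n • z) atTop (𝓝 b')) →
      Tendsto (fun n => c i n • z) atTop (𝓝 b) := by
    intro i
    by_cases h : ∃ b' : Y, Tendsto (fun n => c i n • z) atTop (𝓝 b')
    · obtain ⟨b, hb⟩ := h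
      exact ⟨b, fun _ => hb⟩
    · exact ⟨z, fun h' => absurd h' h⟩
  choose b hb using hlim
  refine ⟨b, fun y hy => ?_⟩
  obtain ⟨g, hg, hgy⟩ := exists_leftCauchy hiso z hz y hy
  obtain ⟨i, h, hi⟩ := hG g hg
  refine ⟨i, h, ?_⟩
  have h2 : Tendsto (fun n => dist (g n • z) (h • c i n • z)) atTop (𝓝 0) := by
    have h3 : Tendsto (fun n => ((g n)⁻¹ * (h * c i n)) • z) atTop (𝓝 ((1 : G) • z)) :=
      hi.smul tendsto_const_nhds
    rw [one_smul, tendsto_iff_dist_tendsto_zero] at h3
    refine h3.congr fun n => ?_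
    rw [← hiso (g n) _ z, smul_smul, mul_inv_cancel_left, mul_smul, dist_comm]
  have h5 : Tendsto (fun n => h • c i n • z) atTop (𝓝 y) := by
    rw [tendsto_iff_dist_tendsto_zero] at hgy ⊢
    have h6 := h2.add hgy
    rw [add_zero] at h6
    refine squeeze_zero (fun n => dist_nonneg) (fun n => ?_) h6
    calc dist (h • c i n • z) y ≤ dist (h • c i n • z) (g n • z) + dist (g n • z) y :=
          dist_triangle _ _ _
      _ = dist (g n • z) (h • c i n • z) + dist (g n • z) y := by rw [dist_comm]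
  have h7 : Tendsto (fun n => c i n • z) atTop (𝓝 (h⁻¹ • y)) := by
    have := h5.const_smul h⁻¹
    simpa only [inv_smul_smul] using this
  have h1 : Tendsto (fun n => h • c i n • z) atTop (𝓝 (h • b i)) :=
    (hb i ⟨_, h7⟩).const_smul h
  exact tendsto_nhds_unique h5 h1

/-- The condensed case. -/
theorem condensed [Nonempty Y] (hG : CountablyManyEnds G)
    (hiso : ∀ (g : G) (x y : Y), dist (g • x) (g • y) = dist x y)
    (hcond : ∀ U : Set Y, IsOpen U → U.Nonempty →
      ¬ ((Quotient.mk (MulAction.orbitRel G Y)) '' U).Countable) :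
    ∃ f : (ℕ → Bool) → Y, Continuous f ∧ ∀ x y, x ≠ y → ¬ ∃ g : G, g • f x = f y := by
  by_cases hm : ∀ z : Y, IsMeagre (range fun g : G => g • z)
  · have hperf : PerfectSpace Y := by
      constructor
      rw [preperfect_iff_nhds]
      intro x _ U hU
      by_contra hcon
      push Not at hcon
      obtain ⟨U', hU', hU'o, hxU'⟩ := mem_nhds_iff.1 hU
      have hsing : U' = {x} := by
        ext y
        constructor
        · intro hy
          exact hcon y ⟨hU' hy, mem_univ _⟩
        · rintro rfl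
          exact hxU'
      rw [hsing] at hU'o
      refine not_isMeagre_of_isOpen hU'o ⟨x, rfl⟩ ((hm x).mono ?_)
      rintro _ rfl
      exact ⟨1, by simp⟩
    have hR : AnalyticSet {p : Y × Y | ∃ g : G, g • p.1 = p.2} := by
      have : {p : Y × Y | ∃ g : G, g • p.1 = p.2} =
          range fun q : G × Y => (q.2, q.1 • q.2) := by
        ext ⟨x, y⟩
        constructor
        · rintro ⟨g, hg⟩
          exact ⟨(g, x), by simpa using hg⟩
        · rintro ⟨⟨g, x'⟩, hq⟩
          obtain ⟨rfl, rfl⟩ := Prod.mk.inj hq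
          exact ⟨g, rfl⟩
      rw [this]
      exact analyticSet_range_of_polishSpace
        (continuous_snd.prodMk (continuous_fst.smul continuous_snd))
    obtain ⟨f, hf, -, hfR⟩ := Pool.Agent.H71.DST.exists_perfect_of_meagre_sections hR
      (fun x => hm x)
    exact ⟨f, hf, hfR⟩
  · push Not at hm
    obtain ⟨z, hz⟩ := hm
    obtain ⟨b, hb⟩ := countable_of_not_isMeagre hG hiso z hz
    exfalso
    have hint : (interior (closure (range fun g : G => g • z))).Nonempty := by
      by_contra hcon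
      rw [not_nonempty_iff_eq_empty] at hcon
      exact hz (IsNowhereDense.isMeagre hcon)
    refine hcond _ isOpen_interior hint ?_
    refine (countable_range fun i => Quotient.mk (MulAction.orbitRel G Y) (b i)).mono ?_
    rintro _ ⟨y, hy, rfl⟩
    obtain ⟨i, h, rfl⟩ := hb y (interior_subset hy)
    refine ⟨i, Eq.symm (Quotient.sound ?_)⟩
    exact ⟨h, rfl⟩

end Iso

section Final

variable {G : Type*} [TopologicalSpace G] [Group G] [IsTopologicalGroup G] [PolishSpace G]

/-- Continuous actions on Polish spaces that preserve a compatible metric. -/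
theorem dichotomy (hG : CountablyManyEnds G) {Z : Type*} [MetricSpace Z] [PolishSpace Z]
    [MulAction G Z] [ContinuousSMul G Z]
    (hiso : ∀ (g : G) (x y : Z), dist (g • x) (g • y) = dist x y) :
    Countable (Quotient (MulAction.orbitRel G Z)) ∨
      ∃ f : (ℕ → Bool) → Z, Continuous f ∧ ∀ x y, x ≠ y → ¬ ∃ g : G, g • f x = f y := by
  set q : Z → Quotient (MulAction.orbitRel G Z) := Quotient.mk _ with hq
  set B := TopologicalSpace.countableBasis Z with hB
  have hBb : TopologicalSpace.IsTopologicalBasis B := TopologicalSpace.isBasis_countableBasis Z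
  have hBc : B.Countable := TopologicalSpace.countable_countableBasis Z
  set B0 : Set (Set Z) := {U | U ∈ B ∧ (q '' U).Countable} with hB0
  have hB0c : B0.Countable := hBc.mono fun U hU => hU.1
  have hO : (q '' (⋃₀ B0)).Countable := by
    rw [sUnion_eq_biUnion, image_iUnion₂]
    exact hB0c.biUnion fun U hU => hU.2
  by_cases huniv : ⋃₀ B0 = univ
  · left
    rw [huniv, image_univ, (Quotient.mk_surjective).range_eq] at hO
    exact countable_univ_iff.1 hO
  right
  let C : SubMulAction G Z :=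
    { carrier := (⋃₀ B0)ᶜ
      smul_mem' := by
        intro g z hz hgz
        obtain ⟨U, hU, hgU⟩ := hgz
        have ho : IsOpen ((fun y : Z => g • y) ⁻¹' U) :=
          (hBb.isOpen hU.1).preimage (continuous_const_smul g)
        obtain ⟨W, hW, hzW, hWU⟩ := hBb.exists_subset_of_mem_open
          (show z ∈ (fun y : Z => g • y) ⁻¹' U from hgU) ho
        apply hz
        refine ⟨W, ⟨hW, ?_⟩, hzW⟩
        refine hU.2.mono ?_
        rintro _ ⟨y, hy, rfl⟩
        refine ⟨g • y, hWU hy, Quotient.sound ?_⟩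
        exact ⟨g, rfl⟩ }
  have hCcl : IsClosed (C : Set Z) := by
    have : IsOpen (⋃₀ B0) := isOpen_sUnion fun U hU => hBb.isOpen hU.1
    exact this.isClosed_compl
  haveI : PolishSpace C := hCcl.polishSpace
  haveI : Nonempty C := by
    obtain ⟨z, hz⟩ := (ne_univ_iff_exists_notMem _).1 huniv
    exact ⟨⟨z, hz⟩⟩
  haveI : ContinuousSMul G C := by
    constructor
    exact Continuous.subtype_mk (continuous_fst.smul (continuous_subtype_val.comp continuous_snd)) _
  obtain ⟨f, hf, hfR⟩ := condensed (G := G) (Y := C) hG (fun g x y => hiso g x y) (by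
    intro U hU hUne hcount
    obtain ⟨y0, hy0⟩ := hUne
    obtain ⟨U', hU', rfl⟩ := isOpen_induced_iff.1 hU
    obtain ⟨W, hW, hyW, hWU⟩ := hBb.exists_subset_of_mem_open
      (show (y0 : Z) ∈ U' from hy0) hU'
    apply y0.2
    refine ⟨W, ⟨hW, ?_⟩, hyW⟩
    let φ : Quotient (MulAction.orbitRel G C) → Quotient (MulAction.orbitRel G Z) :=
      Quotient.map (fun y : C => (y : Z)) (by
        rintro a b ⟨g, rfl⟩
        exact ⟨g, rfl⟩)
    refine (hO.union (hcount.image φ)).mono ?_
    rintro _ ⟨y, hy, rfl⟩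
    by_cases hyO : y ∈ ⋃₀ B0
    · exact Or.inl ⟨y, hyO, rfl⟩
    · exact Or.inr ⟨_, ⟨⟨y, hyO⟩, hWU hy, rfl⟩, rfl⟩)
  refine ⟨fun x => (f x : Z), continuous_subtype_val.comp hf, fun x y hxy => ?_⟩
  rintro ⟨g, hg⟩
  exact hfR x y hxy ⟨g, Subtype.ext hg⟩

end Final

end Pool.Agent.H75.Isom
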