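import Pool.Agent.H75.Isom.Main
import Pool.Agent.H71.PermTop

/-!
# The left completion of `Perm ℕ` is a union of countably many orbits
-/

set_option autoImplicit false

open Set Topology Filter

namespace Pool.Agent.H75.Isom

open Pool.Agent.H71

attribute [local instance] permTop polishSpace_perm isTopologicalGroup_perm

/-- Glue two bijections to a permutation. -/
lemma exists_perm {A B : Set ℕ} (e : A ≃ B) (f : (Aᶜ : Set ℕ) ≃ (Bᶜ : Set ℕ)) :
    ∃ h : Equiv.Perm ℕ, ∀ a : A, h a = e a := by
  classical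
  refine ⟨(Equiv.Set.sumCompl A).symm.trans ((Equiv.sumCongr e f).trans (Equiv.Set.sumCompl B)),
    fun a => ?_⟩
  simp [Equiv.Set.sumCompl_symm_apply]

/-- Two injections with equipotent complements of the ranges differ by a permutation. -/
lemma exists_perm_comp {φ ψ : ℕ → ℕ} (hφ : Function.Injective φ) (hψ : Function.Injective ψ)
    (f : ((range ψ)ᶜ : Set ℕ) ≃ ((range φ)ᶜ : Set ℕ)) :
    ∃ h : Equiv.Perm ℕ, ∀ k, h (ψ k) = φ k := by
  obtain ⟨h, hh⟩ := exists_perm ((Equiv.ofInjective ψ hψ).symm.trans (Equiv.ofInjective φ hφ)) f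
  refine ⟨h, fun k => ?_⟩
  have := hh ⟨ψ k, mem_range_self k⟩
  simpa [Equiv.ofInjective_symm_apply] using this

/-- An injection agrees with a permutation on every initial segment. -/
lemma exists_perm_agree {ψ : ℕ → ℕ} (hψ : Function.Injective ψ) (n : ℕ) :
    ∃ h : Equiv.Perm ℕ, ∀ k < n, h k = ψ k := by
  have hfin1 : (Iio n).Finite := finite_Iio n
  have hfin2 : (ψ '' Iio n).Finite := hfin1.image ψ
  have h1 : ((Iio n)ᶜ : Set ℕ).Infinite := hfin1.infinite_compl
  have h2 : ((ψ '' Iio n)ᶜ : Set ℕ).Infinite := hfin2.infinite_compl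
  haveI := h1.to_subtype
  haveI := h2.to_subtype
  obtain ⟨f⟩ : Nonempty (((Iio n)ᶜ : Set ℕ) ≃ ((ψ '' Iio n)ᶜ : Set ℕ)) := nonempty_equiv_of_countable
  obtain ⟨h, hh⟩ := exists_perm (Equiv.Set.image ψ (Iio n) hψ) f
  refine ⟨h, fun k hk => ?_⟩
  have := hh ⟨k, hk⟩
  simpa using this

lemma mem_nhds_one_iff {V : Set (Equiv.Perm ℕ)} (hV : V ∈ 𝓝 (1 : Equiv.Perm ℕ)) :
    ∃ N, ∀ p : Equiv.Perm ℕ, (∀ k < N, p k = k) → p ∈ V := by
  by_contra hcon
  push Not at hcon
  choose p hp hpV using hcon
  have ht : Tendsto p atTop (𝓝 1) := by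
    refine tendsto_perm (fun a => ?_) fun a => ?_
    · filter_upwards [eventually_gt_atTop a] with n hn
      exact hp n a hn
    · filter_upwards [eventually_gt_atTop a] with n hn
      rw [Equiv.symm_apply_eq]
      exact (hp n a hn).symm
  obtain ⟨n, hn⟩ := (ht.eventually hV).exists
  exact hpV n hn

/-- A sequence of permutations that is eventually constant at every point is left-Cauchy. -/
lemma leftCauchy_of_agree {c : ℕ → Equiv.Perm ℕ} {ψ : ℕ → ℕ} (h : ∀ n, ∀ k < n, c n k = ψ k) :
    LeftCauchy c := by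
  intro V hV
  obtain ⟨N, hN⟩ := mem_nhds_one_iff hV
  refine ⟨N, fun m hm n hn => hN _ fun k hk => ?_⟩
  rw [Equiv.Perm.mul_apply, h n k (lt_of_lt_of_le hk hn), ← h m k (lt_of_lt_of_le hk hm)]
  exact Equiv.symm_apply_apply _ _

/-- A left-Cauchy sequence of permutations converges pointwise to an injection. -/
lemma exists_limit {g : ℕ → Equiv.Perm ℕ} (hg : LeftCauchy g) :
    ∃ φ : ℕ → ℕ, Function.Injective φ ∧ ∀ k, ∀ᶠ n in atTop, g n k = φ k := by
  have h1 : ∀ k, ∃ a, ∀ᶠ n in atTop, g n k = a := by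
    intro k
    have hV : {p : Equiv.Perm ℕ | p k = k} ∈ 𝓝 (1 : Equiv.Perm ℕ) :=
      (isOpen_apply_eq k k).mem_nhds rfl
    obtain ⟨N, hN⟩ := hg _ hV
    refine ⟨g N k, ?_⟩
    filter_upwards [eventually_ge_atTop N] with n hn
    have : ((g N)⁻¹ * g n) k = k := hN N le_rfl n hn
    rw [Equiv.Perm.mul_apply, Equiv.Perm.inv_eq_iff_eq] at this
    exact this
  choose φ hφ using h1
  refine ⟨φ, fun a b hab => ?_, hφ⟩
  obtain ⟨n, hn1, hn2⟩ := ((hφ a).and (hφ b)).exists
  exact (g n).injective (by rw [hn1, hn2, hab])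

/-- The standard injections: `0` has an infinite complement, `r + 1` a complement with `r`
elements. -/
def std : ℕ → ℕ → ℕ
  | 0, k => 2 * k
  | r + 1, k => k + r

lemma std_injective (i : ℕ) : Function.Injective (std i) := by
  cases i with
  | zero => intro a b h; simp only [std] at h; omega
  | succ r => intro a b h; simp only [std] at h; omega

/-- The left completion of `Perm ℕ` consists of the injections; its orbits are given by the
number of points that are not in the range. -/
theorem countablyManyEnds_perm : CountablyManyEnds (Equiv.Perm ℕ) := by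
  choose c hc using fun (i n : ℕ) => exists_perm_agree (std_injective i) n
  refine ⟨c, fun i => leftCauchy_of_agree (hc i), fun g hg => ?_⟩
  obtain ⟨φ, hφ, hlim⟩ := exists_limit hg
  obtain ⟨i, ⟨f⟩⟩ : ∃ i, Nonempty (((range (std i))ᶜ : Set ℕ) ≃ ((range φ)ᶜ : Set ℕ)) := by
    by_cases hfin : ((range φ)ᶜ : Set ℕ).Finite
    · refine ⟨Nat.card ((range φ)ᶜ : Set ℕ) + 1, ?_⟩
      set r := Nat.card ((range φ)ᶜ : Set ℕ) with hr
      have e : ((range (std (r + 1)))ᶜ : Set ℕ) = Iio r := by
        ext m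
        simp only [mem_compl_iff, mem_range, std, mem_Iio]
        constructor
        · intro h
          by_contra hm
          exact h ⟨m - r, by omega⟩
        · rintro h ⟨k, hk⟩
          omega
      rw [e]
      haveI := hfin.to_subtype
      haveI : Finite (Iio r) := (finite_Iio r).to_subtype
      haveI := Fintype.ofFinite ((range φ)ᶜ : Set ℕ)
      haveI := Fintype.ofFinite (Iio r)
      refine ⟨Fintype.equivOfCardEq ?_⟩
      rw [← Nat.card_eq_fintype_card, ← Nat.card_eq_fintype_card, ← hr]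
      simp
    · refine ⟨0, ?_⟩
      have h1 : ((range (std 0))ᶜ : Set ℕ).Infinite := by
        refine infinite_of_injective_forall_mem (f := fun k => 2 * k + 1) ?_ ?_
        · intro a b h
          simp only at h
          omega
        · rintro k ⟨m, hm⟩
          simp only [std] at hm
          omega
      have h2 : ((range φ)ᶜ : Set ℕ).Infinite := hfin
      haveI := h1.to_subtype
      haveI := h2.to_subtype
      exact nonempty_equiv_of_countable
  obtain ⟨h, hh⟩ := exists_perm_comp hφ (std_injective i) f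
  refine ⟨i, h, ?_⟩
  have key : ∀ a, ∀ᶠ n in atTop, ((g n)⁻¹ * (h * c i n)) a = a := by
    intro a
    filter_upwards [hlim a, eventually_gt_atTop a] with n hn1 hn2
    rw [Equiv.Perm.mul_apply, Equiv.Perm.mul_apply, hc i n a hn2, hh, ← hn1]
    exact Equiv.symm_apply_apply _ _
  refine tendsto_perm (fun a => key a) fun a => ?_
  filter_upwards [key a] with n hn
  rw [Equiv.symm_apply_eq]
  exact hn.symm

end Pool.Agent.H75.Isom
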