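import Mathlib

/-!
# The space of orbit closures of an isometric action

For an isometric action of a group `K` on a metric space `Z` the space `Orb K Z` of the orbit
closures is a metric space, complete and separable if `Z` is; a continuous action of a topological
group `H` on `Z` which commutes with that of `K` passes to `Orb K Z`.
-/

set_option autoImplicit false
set_option linter.unusedSectionVars false

open Set Topology Filter

namespace Pool.Agent.H75.Isom

/-- A copy of `Z`, to be equipped with the distance between the `K`-orbits. -/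
structure Mod (K Z : Type*) where
  /-- the point -/
  pt : Z

section dist

variable {K Z : Type*} [Group K] [MetricSpace Z] [MulAction K Z] [IsIsometricSMul K Z]

/-- The distance between the orbits. -/
noncomputable def odist (K : Type*) {Z : Type*} [Group K] [MetricSpace Z] [MulAction K Z]
    (z w : Z) : ℝ := ⨅ k : K, dist z (k • w)

lemma odist_bdd (z w : Z) : BddBelow (range fun k : K => dist z (k • w)) :=
  ⟨0, by rintro _ ⟨k, rfl⟩; exact dist_nonneg⟩

lemma odist_lt {z w : Z} {ε : ℝ} : odist K z w < ε ↔ ∃ k : K, dist z (k • w) < ε := by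
  constructor
  · intro h
    exact exists_lt_of_ciInf_lt h
  · rintro ⟨k, hk⟩
    exact (ciInf_le (odist_bdd z w) k).trans_lt hk

lemma odist_nonneg (z w : Z) : 0 ≤ odist K z w := Real.iInf_nonneg fun _ => dist_nonneg

lemma odist_le (z w : Z) : odist K z w ≤ dist z w := by
  have := ciInf_le (odist_bdd (K := K) z w) 1
  simpa [odist] using this

lemma odist_comm_le (z w : Z) : odist K z w ≤ odist K w z := by
  refine le_of_forall_pos_lt_add fun ε hε => ?_
  obtain ⟨k, hk⟩ := odist_lt.1 (lt_add_of_pos_right (odist K w z) hε)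
  refine odist_lt.2 ⟨k⁻¹, ?_⟩
  rw [← dist_smul k, smul_inv_smul, dist_comm]
  exact hk

lemma odist_comm (z w : Z) : odist K z w = odist K w z :=
  le_antisymm (odist_comm_le z w) (odist_comm_le w z)

lemma odist_triangle (x y z : Z) : odist K x z ≤ odist K x y + odist K y z := by
  refine le_of_forall_pos_lt_add fun ε hε => ?_
  obtain ⟨a, ha⟩ := odist_lt.1 (lt_add_of_pos_right (odist K x y) (half_pos hε))
  obtain ⟨b, hb⟩ := odist_lt.1 (lt_add_of_pos_right (odist K y z) (half_pos hε))
  refine odist_lt.2 ⟨a * b, ?_⟩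
  calc dist x ((a * b) • z) ≤ dist x (a • y) + dist (a • y) ((a * b) • z) := dist_triangle _ _ _
    _ = dist x (a • y) + dist y (b • z) := by rw [mul_smul, dist_smul]
    _ < (odist K x y + ε / 2) + (odist K y z + ε / 2) := add_lt_add ha hb
    _ = odist K x y + odist K y z + ε := by ring

noncomputable instance instMod : PseudoMetricSpace (Mod K Z) where
  dist z w := odist K z.pt w.pt
  dist_self z := le_antisymm ((odist_le (K := K) z.pt z.pt).trans_eq (dist_self z.pt))
    (odist_nonneg _ _)
  dist_comm z w := odist_comm (K := K) z.pt w.pt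
  dist_triangle x y z := odist_triangle (K := K) x.pt y.pt z.pt

lemma dist_Mod (z w : Mod K Z) : dist z w = odist K z.pt w.pt := rfl

lemma continuous_Mod_mk : Continuous (Mod.mk : Z → Mod K Z) := by
  refine LipschitzWith.continuous (K := 1) (LipschitzWith.of_dist_le_mul fun z w => ?_)
  rw [NNReal.coe_one, one_mul]
  exact odist_le z w

instance instComplete [CompleteSpace Z] : CompleteSpace (Mod K Z) := by
  refine Metric.complete_of_convergent_controlled_sequences (fun n => (1 / 2 : ℝ) ^ n)
    (fun n => by positivity) fun u hu => ?_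
  have h1 : ∀ n, ∃ k : K, dist (u n).pt (k • (u (n + 1)).pt) < (1 / 2 : ℝ) ^ n := fun n =>
    odist_lt.1 (hu n n (n + 1) le_rfl (Nat.le_succ n))
  choose k hk using h1
  let s : ℕ → K := fun n => Nat.rec 1 (fun n a => a * k n) n
  have hs : ∀ n, s (n + 1) = s n * k n := fun n => rfl
  let v : ℕ → Z := fun n => s n • (u n).pt
  have hv : ∀ n, dist (v n) (v (n + 1)) ≤ 1 * (1 / 2 : ℝ) ^ n := by
    intro n
    rw [one_mul]
    change dist (s n • (u n).pt) (s (n + 1) • (u (n + 1)).pt) ≤ _
    rw [hs, mul_smul, dist_smul]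
    exact (hk n).le
  have hC : CauchySeq v := cauchySeq_of_le_geometric (1 / 2) 1 (by norm_num) hv
  obtain ⟨z, hz⟩ := cauchySeq_tendsto_of_complete hC
  refine ⟨⟨z⟩, ?_⟩
  rw [tendsto_iff_dist_tendsto_zero] at hz ⊢
  refine squeeze_zero (fun n => dist_nonneg) (fun n => ?_) hz
  have h2 : dist (v n) z = dist (u n).pt ((s n)⁻¹ • z) := by
    change dist (s n • (u n).pt) z = _
    rw [← dist_smul (s n)⁻¹, inv_smul_smul]
  rw [h2]
  exact ciInf_le (odist_bdd (K := K) (u n).pt z) _

instance instSeparable [TopologicalSpace.SeparableSpace Z] :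
    TopologicalSpace.SeparableSpace (Mod K Z) := by
  obtain ⟨D, hD, hD'⟩ := TopologicalSpace.exists_countable_dense Z
  refine ⟨⟨Mod.mk '' D, hD.image _, ?_⟩⟩
  have hsurj : Function.Surjective (Mod.mk : Z → Mod K Z) := fun z => ⟨z.pt, rfl⟩
  exact hsurj.denseRange.dense_image continuous_Mod_mk hD'

end dist

section action

variable {K H Z : Type*} [Group K] [Group H] [TopologicalSpace H] [MetricSpace Z] [MulAction K Z]
  [IsIsometricSMul K Z] [MulAction H Z] [ContinuousSMul H Z] [SMulCommClass H K Z]

instance instActMod : MulAction H (Mod K Z) where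
  smul h z := ⟨h • z.pt⟩
  one_smul z := by
    change (⟨(1 : H) • z.pt⟩ : Mod K Z) = z
    rw [one_smul]
  mul_smul a b z := by
    change (⟨(a * b) • z.pt⟩ : Mod K Z) = ⟨a • b • z.pt⟩
    rw [mul_smul]

lemma smul_Mod (h : H) (z : Mod K Z) : h • z = ⟨h • z.pt⟩ := rfl

instance instContMod : ContinuousSMul H (Mod K Z) := by
  refine ⟨continuous_iff_continuousAt.2 ?_⟩
  rintro ⟨h0, z0⟩
  rw [Metric.continuousAt_iff']
  intro ε hε
  have hc : Continuous fun p : H × Z => p.1 • p.2 := continuous_smul
  have h1 := Metric.continuousAt_iff'.1 (hc.continuousAt (x := (h0, z0.pt))) ε hε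
  rw [nhds_prod_eq, eventually_prod_iff] at h1
  obtain ⟨P, hP, Q, hQ, hPQ⟩ := h1
  obtain ⟨δ, hδ, hball⟩ := Metric.eventually_nhds_iff.1 hQ
  rw [nhds_prod_eq, eventually_prod_iff]
  refine ⟨P, hP, fun z : Mod K Z => dist z z0 < δ, Metric.eventually_nhds_iff.2
    ⟨δ, hδ, fun _ hy => hy⟩, ?_⟩
  intro h hh z hz
  have hz' : odist K z0.pt z.pt < δ := by
    have : dist z z0 < δ := hz
    rw [dist_comm] at this
    exact this
  obtain ⟨k, hk⟩ := odist_lt.1 hz'
  have h2 : dist (h • (k • z.pt)) (h0 • z0.pt) < ε := by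
    refine hPQ hh (hball ?_)
    rw [dist_comm]
    exact hk
  have h3 : odist K (h0 • z0.pt) (h • z.pt) < ε := by
    refine odist_lt.2 ⟨k, ?_⟩
    rw [dist_comm, ← smul_comm h k z.pt]
    exact h2
  change odist K (h • z.pt) (h0 • z0.pt) < ε
  rw [odist_comm]
  exact h3

/-- The space of the orbit closures. -/
abbrev Orb (K Z : Type*) [Group K] [MetricSpace Z] [MulAction K Z] [IsIsometricSMul K Z] : Type _ :=
  SeparationQuotient (Mod K Z)

/-- The orbit closure of a point. -/
noncomputable def toOrb (K : Type*) {Z : Type*} [Group K] [MetricSpace Z] [MulAction K Z]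
    [IsIsometricSMul K Z] (z : Z) : Orb K Z := SeparationQuotient.mk ⟨z⟩

lemma continuous_toOrb : Continuous (toOrb K : Z → Orb K Z) :=
  SeparationQuotient.continuous_mk.comp continuous_Mod_mk

lemma toOrb_eq_iff {z w : Z} : toOrb K z = toOrb K w ↔ ∀ ε > 0, ∃ k : K, dist z (k • w) < ε := by
  unfold toOrb
  rw [SeparationQuotient.mk_eq_mk, Metric.inseparable_iff, dist_Mod]
  constructor
  · intro h ε hε
    exact odist_lt.1 (by rw [h]; exact hε)
  · intro h
    refine le_antisymm (le_of_forall_pos_lt_add fun ε hε => ?_) (odist_nonneg _ _)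
    rw [zero_add]
    exact odist_lt.2 (h ε hε)

lemma toOrb_smul (h : H) (z : Z) : toOrb K (h • z) = h • toOrb K z := rfl

end action

end Pool.Agent.H75.Isom
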