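import Pool.Agent.H75.Isom.Base
import Pool.Agent.H75.Isom.Quot
import Pool.Agent.H71.HV.ALL

/-!
# Borel spaces over spaces with a commuting pair of an isometric and a continuous action

`S` is the group of the permutations of `ℕ`, `H` a Polish group. A Borel equivariant map from a
standard Borel space with an action of `S × H` into a Polish `S × H`-space on which `S` acts by
isometries reduces the countable-or-perfect dichotomy to the fibres, if the stabilizers in `H` of
the closures of the `S`-orbits are not divisible by `S`.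
-/

set_option autoImplicit false
set_option linter.unusedSectionVars false

open Set Topology Filter MeasureTheory

namespace Pool.Agent.H75.Isom

open Pool.Agent.H4.TVI

attribute [local instance] Pool.Agent.H71.permTop

theorem product {H X Z : Type*} [Group H] [TopologicalSpace H] [IsTopologicalGroup H]
    [PolishSpace H]
    [MeasurableSpace X] [StandardBorelSpace X] [MulAction (Equiv.Perm ℕ × H) X]
    [MetricSpace Z] [CompleteSpace Z] [SecondCountableTopology Z] [MeasurableSpace Z]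
    [BorelSpace Z] [MulAction (Equiv.Perm ℕ × H) Z] [ContinuousSMul (Equiv.Perm ℕ × H) Z]
    (hiso : ∀ (s : Equiv.Perm ℕ) (z w : Z), dist ((s, (1 : H)) • z) ((s, (1 : H)) • w) = dist z w)
    (π : X → Z) (hπ : Measurable π)
    (heq : ∀ (g : Equiv.Perm ℕ × H) (x : X), π (g • x) = g • π x)
    (hH : ∀ (x : X) (L : Subgroup H), IsClosed (L : Set H) →
      (∀ h ∈ L, ((1 : Equiv.Perm ℕ), h) • π x ∈
        closure (range fun s : Equiv.Perm ℕ => (s, (1 : H)) • π x)) →
      ¬ ∃ φ : L →* Equiv.Perm ℕ, Function.Surjective φ ∧ ∀ n m : ℕ, IsOpen {h : L | φ h n = m})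
    (hfib : ∀ x, CountableOrPerfectOn (MulAction.stabilizer (Equiv.Perm ℕ × H) (π x))
      (π ⁻¹' {π x})) :
    CountableOrPerfectOn (⊤ : Subgroup (Equiv.Perm ℕ × H)) (univ : Set X) := by
  classical
  -- the two actions on `Z`
  let aS : MulAction (Equiv.Perm ℕ) Z := MulAction.compHom Z (MonoidHom.inl (Equiv.Perm ℕ) H)
  let aH : MulAction H Z := MulAction.compHom Z (MonoidHom.inr (Equiv.Perm ℕ) H)
  have dS : ∀ (s : Equiv.Perm ℕ) (z : Z), s • z = (s, (1 : H)) • z := fun _ _ => rfl
  have dH : ∀ (h : H) (z : Z), h • z = ((1 : Equiv.Perm ℕ), h) • z := fun _ _ => rfl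
  have dG : ∀ (s : Equiv.Perm ℕ) (h : H) (z : Z), (s, h) • z = s • h • z := by
    intro s h z
    rw [dS, dH, ← mul_smul, Prod.mk_mul_mk, mul_one, one_mul]
  have cS : ContinuousSMul (Equiv.Perm ℕ) Z := by
    refine ⟨?_⟩
    exact (continuous_fst.prodMk continuous_const).smul continuous_snd
  have cH : ContinuousSMul H Z := by
    refine ⟨?_⟩
    exact (continuous_const.prodMk continuous_fst).smul continuous_snd
  have comm : SMulCommClass H (Equiv.Perm ℕ) Z := by
    refine ⟨fun h s z => ?_⟩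
    rw [dS, dS, dH, dH, ← mul_smul, ← mul_smul, Prod.mk_mul_mk, Prod.mk_mul_mk, mul_one, one_mul,
      mul_one, one_mul]
  have iS : IsIsometricSMul (Equiv.Perm ℕ) Z :=
    ⟨fun s => Isometry.of_dist_eq fun z w => hiso s z w⟩
  -- the space of the orbit closures
  have : TopologicalSpace.SeparableSpace (Orb (Equiv.Perm ℕ) Z) :=
    (SeparationQuotient.surjective_mk (X := Mod (Equiv.Perm ℕ) Z)).denseRange.separableSpace
      SeparationQuotient.continuous_mk
  have : SecondCountableTopology (Orb (Equiv.Perm ℕ) Z) :=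
    UniformSpace.secondCountable_of_separable (Orb (Equiv.Perm ℕ) Z)
  have : PolishSpace (Orb (Equiv.Perm ℕ) Z) := inferInstance
  let mY : MeasurableSpace (Orb (Equiv.Perm ℕ) Z) := borel _
  have bY : BorelSpace (Orb (Equiv.Perm ℕ) Z) := ⟨rfl⟩
  let mH : MeasurableSpace H := borel H
  have bH : BorelSpace H := ⟨rfl⟩
  have hact : Measurable fun p : H × Orb (Equiv.Perm ℕ) Z => p.1 • p.2 :=
    continuous_smul.measurable
  rcases isEmpty_or_nonempty X with hX | hX
  · exact Or.inl ⟨∅, countable_empty, fun x _ => hX.elim x⟩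
  let uX := upgradeStandardBorel X
  obtain ⟨b, hb, hbs⟩ := PolishSpace.exists_nat_nat_continuous_surjective X
  have hbm : Measurable b := hb.measurable
  let f : (ℕ → ℕ) → Orb (Equiv.Perm ℕ) Z := fun u => toOrb (Equiv.Perm ℕ) (π (b u))
  have hf : Measurable f := continuous_toOrb.measurable.comp (hπ.comp hbm)
  rcases Pool.Agent.H71.HV.localHjorth H (Orb (Equiv.Perm ℕ) Z) hact f hf with
    ⟨c, hc⟩ | ⟨F, hF1, hF2⟩ | h
  · -- countably many orbit closures up to `H`
    have hz : ∀ n, ∃ z : Z, toOrb (Equiv.Perm ℕ) z = c n := by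
      intro n
      obtain ⟨m, hm⟩ := SeparationQuotient.surjective_mk (c n)
      exact ⟨m.pt, hm⟩
    choose zz hzz using hz
    have hT : ∃ T : Set Z, T.Countable ∧ ∀ x : X, ∃ g : Equiv.Perm ℕ × H, g • π x ∈ T := by
      refine ⟨⋃ n : ℕ, Quotient.out '' {c : Quotient (MulAction.orbitRel
        (Equiv.Perm ℕ) Z) | ∃ w, oc (Equiv.Perm ℕ) Z (zz n) w ∧ Quotient.mk _ w = c}, ?_, ?_⟩
      · exact countable_iUnion fun q => (countable_orbits_in_closure _).image _
      · intro x
        obtain ⟨u, rfl⟩ := hbs x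
        obtain ⟨n, h, hh⟩ := hc u
        have h1 : oc (Equiv.Perm ℕ) Z (zz n) (h • π (b u)) := by
          have h3 : toOrb (Equiv.Perm ℕ) (h • π (b u)) = toOrb (Equiv.Perm ℕ) (zz n) := by
            rw [hzz n, ← hh]
            rfl
          exact toOrb_eq_iff.1 h3
        have h2 : (MulAction.orbitRel (Equiv.Perm ℕ) Z)
            (Quotient.mk (MulAction.orbitRel (Equiv.Perm ℕ) Z) (h • π (b u))).out
              (h • π (b u)) :=
          Quotient.mk_out (s := MulAction.orbitRel (Equiv.Perm ℕ) Z) (h • π (b u))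
        obtain ⟨s, hs⟩ := h2
        refine ⟨(s, h), mem_iUnion.2 ⟨n, ?_⟩⟩
        rw [dG]
        refine ⟨Quotient.mk (MulAction.orbitRel (Equiv.Perm ℕ) Z) (h • π (b u)),
          ⟨h • π (b u), h1, rfl⟩, ?_⟩
        exact hs.symm
    obtain ⟨T, hTc, hT⟩ := hT
    by_cases hall : ∀ z ∈ T, ∃ D : Set X, D.Countable ∧ ∀ x ∈ π ⁻¹' {z},
        ∃ g ∈ MulAction.stabilizer (Equiv.Perm ℕ × H) z, g • x ∈ D
    · left
      choose! D hD hDx using hall
      refine ⟨⋃ z ∈ T, D z, hTc.biUnion hD, fun x _ => ?_⟩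
      obtain ⟨g, hg⟩ := hT x
      obtain ⟨h, -, hh⟩ := hDx (g • π x) hg (g • x) (heq g x)
      refine ⟨h * g, Subgroup.mem_top _, mem_iUnion₂.2 ⟨g • π x, hg, ?_⟩⟩
      rw [mul_smul]
      exact hh
    · right
      push Not at hall
      obtain ⟨z, hz, hD⟩ := hall
      obtain ⟨x0, hx0, -⟩ := hD ∅ countable_empty
      obtain rfl : π x0 = z := hx0
      rcases hfib x0 with ⟨D, hDc, hDx⟩ | ⟨f, hf, hfA, hf'⟩
      · obtain ⟨x, hx, hx'⟩ := hD D hDc
        obtain ⟨g, hg, hgx⟩ := hDx x hx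
        exact absurd hgx (hx' g hg)
      · refine ⟨f, hf, fun _ => mem_univ _, fun a b hab g _ hg => hf' a b hab g ?_ hg⟩
        rw [MulAction.mem_stabilizer_iff]
        have h1 : π (f a) = π x0 := hfA a
        have h2 : π (f b) = π x0 := hfA b
        rw [← hg, heq, h1] at h2
        exact h2
  · -- perfectly many
    right
    refine ⟨fun u => b (F u), hbm.comp hF1.measurable, fun _ => mem_univ _, ?_⟩
    rintro u v huv ⟨s, h⟩ - hg
    refine hF2 u v huv h ?_
    change h • toOrb (Equiv.Perm ℕ) (π (b (F u))) = toOrb (Equiv.Perm ℕ) (π (b (F v)))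
    have hg' : (s, h) • b (F u) = b (F v) := hg
    rw [← hg', heq, dG, ← toOrb_smul]
    symm
    rw [toOrb_eq_iff]
    exact fun ε hε => ⟨s, by simpa using hε⟩
  · exfalso
    apply h
    refine ⟨fun _ => f 0, fun u hu => ?_⟩
    obtain ⟨L, hL, hLc, φ, hφ1, hφ2⟩ := hu
    refine absurd ⟨φ, hφ1, hφ2⟩ (hH (b u) L hLc fun h hh => ?_)
    have h1 : h • toOrb (Equiv.Perm ℕ) (π (b u)) = toOrb (Equiv.Perm ℕ) (π (b u)) := hL hh
    rw [← toOrb_smul, toOrb_eq_iff] at h1
    rw [Metric.mem_closure_iff]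
    intro ε hε
    obtain ⟨s, hs⟩ := h1 ε hε
    exact ⟨_, ⟨s, rfl⟩, hs⟩

end Pool.Agent.H75.Isom
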